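import Pool.Agent.W423.NI.Defs

/-!
Project NI (helper423): nondegenerate polynomials have a nondegenerate Cayley polynomial (TaskCay).
Adapted from `Pool.Agent.W721.NT.NDC`.
-/

set_option autoImplicit false

namespace Pool.Agent.W150.NI

open Pool.Agent.W423.NI Pool.Agent.W749.JI
open Pool.Agent.W425.ND (Nondeg onFace)

variable {n k r : ℕ}

lemma cay_l (π : Fin k → Fin r) (m : Fin k → Fin n → ℕ) (j : Fin k) (v : Fin n) :
    cay π m j (Fin.castAdd r v) = m j v := by
  unfold cay
  rw [Fin.append_left]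

lemma cay_r (π : Fin k → Fin r) (m : Fin k → Fin n → ℕ) (j : Fin k) (i : Fin r) :
    cay π m j (Fin.natAdd n i) = if π j = i then 1 else 0 := by
  unfold cay
  rw [Fin.append_right]

lemma sum_cay (π : Fin k → Fin r) (m : Fin k → Fin n → ℕ) (w' : Fin (n + r) → ℝ) (j : Fin k) :
    ∑ i, w' i * (cay π m j i : ℝ) = ∑ i, w' (Fin.castAdd r i) * (m j i : ℝ) +
      w' (Fin.natAdd n (π j)) := by
  rw [Fin.sum_univ_add]
  congr 1
  · apply Finset.sum_congr rfl
    intro i _
    rw [cay_l]
  · rw [Finset.sum_eq_single (π j)]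
    · rw [cay_r, if_pos rfl]
      simp
    · intro i _ hi
      rw [cay_r, if_neg (fun h => hi h.symm)]
      simp
    · intro h
      exact absurd (Finset.mem_univ _) h

lemma prod_cay (π : Fin k → Fin r) (m : Fin k → Fin n → ℕ) (z : Fin (n + r) → ℂ) (j : Fin k) :
    ∏ i, z i ^ cay π m j i = (∏ i, z (Fin.castAdd r i) ^ m j i) * z (Fin.natAdd n (π j)) := by
  rw [Fin.prod_univ_add]
  congr 1
  · apply Finset.prod_congr rfl
    intro i _
    rw [cay_l]
  · rw [Finset.prod_eq_single (π j)]
    · rw [cay_r, if_pos rfl, pow_one]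
    · intro i _ hi
      rw [cay_r, if_neg (fun h => hi h.symm), pow_zero]
    · intro h
      exact absurd (Finset.mem_univ _) h

theorem cay : TaskCay := by
  classical
  intro n k r π m c hk hnd w' z hz
  rintro ⟨-, heq⟩
  set w : Fin n → ℝ := fun i => w' (Fin.castAdd r i) with hw
  set x : Fin n → ℂ := fun i => z (Fin.castAdd r i) with hx
  set y : Fin r → ℂ := fun i => z (Fin.natAdd n i) with hy
  set K : Finset (Fin r) := Finset.univ.filter
    (fun i => ∃ j, π j = i ∧ onFace (Pool.Agent.W749.JI.cay π m) w' j) with hK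
  have hface : ∀ j, onFace (Pool.Agent.W749.JI.cay π m) w' j ↔ ∀ j',
      ∑ i, w i * (m j i : ℝ) + w' (Fin.natAdd n (π j)) ≤
      ∑ i, w i * (m j' i : ℝ) + w' (Fin.natAdd n (π j')) := by
    intro j
    unfold onFace
    apply forall_congr'
    intro j'
    rw [sum_cay, sum_cay]
  have hiff : ∀ j, (π j ∈ K ∧ onFaceI π m w j) ↔ onFace (Pool.Agent.W749.JI.cay π m) w' j := by
    intro j
    constructor
    · rintro ⟨h1, h2⟩
      rw [hK, Finset.mem_filter] at h1
      obtain ⟨-, j0, h3, h4⟩ := h1
      rw [hface] at h4 ⊢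
      intro j'
      have h5 := h2 j0 h3
      have h6 := h4 j'
      rw [h3] at h6
      linarith
    · intro h
      refine ⟨?_, ?_⟩
      · rw [hK, Finset.mem_filter]
        exact ⟨Finset.mem_univ _, j, rfl, h⟩
      · rw [hface] at h
        intro j' hj'
        have := h j'
        rw [hj'] at this
        linarith
  have hKne : K.Nonempty := by
    have : Nonempty (Fin k) := ⟨⟨0, hk⟩⟩
    obtain ⟨j0, hj0⟩ := Finite.exists_min (fun j => ∑ i, w i * (m j i : ℝ) +
      w' (Fin.natAdd n (π j)))
    refine ⟨π j0, ?_⟩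
    rw [hK, Finset.mem_filter]
    exact ⟨Finset.mem_univ _, j0, rfl, (hface j0).2 hj0⟩
  refine hnd w K x y hKne (fun i => hz _) (fun i _ => hz _) ?_ ?_
  · intro i hi
    have h1 := heq (Fin.natAdd n i)
    have h2 : (∑ j, if onFace (Pool.Agent.W749.JI.cay π m) w' j then
          c j * ((Pool.Agent.W749.JI.cay π m j (Fin.natAdd n i) : ℕ) : ℂ) *
        ∏ i, z i ^ Pool.Agent.W749.JI.cay π m j i else 0) =
        y i * ∑ j, (if π j = i ∧ onFaceI π m w j then c j * ∏ v, x v ^ m j v else 0) := by
      rw [Finset.mul_sum]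
      apply Finset.sum_congr rfl
      intro j _
      rw [cay_r, prod_cay]
      by_cases hj : π j = i
      · have h3 : onFace (Pool.Agent.W749.JI.cay π m) w' j ↔ onFaceI π m w j := by
          rw [← hiff j, hj]
          exact ⟨fun h => h.2, fun h => ⟨hi, h⟩⟩
        by_cases hf : onFaceI π m w j
        · rw [if_pos (h3.2 hf), if_pos (show π j = i ∧ onFaceI π m w j from ⟨hj, hf⟩),
            if_pos hj, hj, hy]
          push_cast
          ring
        · rw [if_neg (fun h => hf (h3.1 h)), if_neg (fun h => hf h.2), mul_zero]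
      · rw [if_neg (fun h : π j = i ∧ onFaceI π m w j => hj h.1), if_neg hj]
        simp
    rw [h2] at h1
    rcases mul_eq_zero.1 h1 with h3 | h3
    · exact absurd h3 (hz _)
    · exact h3
  · intro v
    have h1 := heq (Fin.castAdd r v)
    refine Eq.trans ?_ h1
    simp only [Finset.mul_sum]
    rw [Finset.sum_comm]
    apply Finset.sum_congr rfl
    intro j _
    rw [cay_l, prod_cay]
    by_cases hf : onFace (Pool.Agent.W749.JI.cay π m) w' j
    · obtain ⟨h3, h4⟩ := (hiff j).2 hf
      rw [if_pos hf, Finset.sum_eq_single (π j)]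
      · rw [if_pos ⟨rfl, h4⟩, hy]
        simp only
        ring
      · intro i _ hi
        rw [if_neg (fun h => hi h.1.symm), mul_zero]
      · intro h
        exact absurd h3 h
    · rw [if_neg hf]
      apply Finset.sum_eq_zero
      intro i hi
      rw [if_neg, mul_zero]
      rintro ⟨h3, h4⟩
      apply hf
      rw [← hiff j, h3]
      exact ⟨hi, h4⟩

end Pool.Agent.W150.NI
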